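import Mathlib

/-!
# A permutation which avoids or exhausts
-/

set_option autoImplicit false

namespace Pool.Agent.Dhub

theorem exists_perm {n : ℕ} {ι : Type*} (κ l : ι → Finset (Fin n))
    (hκ : ∀ a b, a ≠ b → Disjoint (κ a) (κ b)) (hl : ∀ a b, a ≠ b → Disjoint (l a) (l b)) :
    ∃ σ : Equiv.Perm (Fin n), ∀ a,
      (∀ j ∈ l a, σ j ∉ κ a) ∨ ∀ i, i ∈ κ a ∨ ∃ j ∈ l a, σ j = i := by
  classical
  have h0 : ∀ a, ∃ t ⊆ l a, t.card = min (l a).card (n - (κ a).card) := fun a =>
    Finset.exists_subset_card_eq (min_le_left _ _)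
  choose l' hl' hc' using h0
  have hdis : ∀ j a b, j ∈ l' a → j ∈ l' b → a = b := by
    intro j a b h1 h2
    by_contra hab
    exact Finset.disjoint_left.1 (hl a b hab) (hl' a h1) (hl' b h2)
  have hκd : ∀ i a b, i ∈ κ a → i ∈ κ b → a = b := by
    intro i a b h1 h2
    by_contra hab
    exact Finset.disjoint_left.1 (hκ a b hab) h1 h2
  let t : Fin n → Finset (Fin n) := fun j => Finset.univ.filter (fun i => ∀ a, j ∈ l' a → i ∉ κ a)
  have ht : ∀ j i, i ∈ t j ↔ ∀ a, j ∈ l' a → i ∉ κ a := by
    intro j i
    simp only [t, Finset.mem_filter, Finset.mem_univ, true_and]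
  obtain ⟨f, hf, hft⟩ := (Finset.all_card_le_biUnion_card_iff_exists_injective t).1 (by
    intro s
    rcases s.eq_empty_or_nonempty with rfl | ⟨j0, hj0⟩
    · simp
    by_cases hA : ∃ a0, j0 ∈ l' a0
    · obtain ⟨a0, ha0⟩ := hA
      by_cases hs : s ⊆ l' a0
      · have h1 : (κ a0)ᶜ ⊆ s.biUnion t := by
          intro i hi
          rw [Finset.mem_compl] at hi
          refine Finset.mem_biUnion.2 ⟨j0, hj0, (ht _ _).2 fun a ha => ?_⟩
          rw [hdis j0 a a0 ha ha0]
          exact hi
        have h2 := Finset.card_le_card h1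
        rw [Finset.card_compl, Fintype.card_fin] at h2
        have h3 := Finset.card_le_card hs
        have h4 := hc' a0
        have h5 : min (l a0).card (n - (κ a0).card) ≤ n - (κ a0).card := min_le_right _ _
        omega
      · obtain ⟨j1, hj1, hj1'⟩ := Finset.not_subset.1 hs
        have h1 : (Finset.univ : Finset (Fin n)) ⊆ s.biUnion t := by
          intro i _
          by_cases hi : i ∈ κ a0
          · refine Finset.mem_biUnion.2 ⟨j1, hj1, (ht _ _).2 fun a ha hia => ?_⟩
            have h2 := hκd i a a0 hia hi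
            rw [h2] at ha
            exact hj1' ha
          · refine Finset.mem_biUnion.2 ⟨j0, hj0, (ht _ _).2 fun a ha => ?_⟩
            rw [hdis j0 a a0 ha ha0]
            exact hi
        exact (Finset.card_le_card (Finset.subset_univ s)).trans (Finset.card_le_card h1)
    · push Not at hA
      have h1 : (Finset.univ : Finset (Fin n)) ⊆ s.biUnion t := by
        intro i _
        exact Finset.mem_biUnion.2 ⟨j0, hj0, (ht _ _).2 fun a ha => absurd ha (hA a)⟩
      exact (Finset.card_le_card (Finset.subset_univ s)).trans (Finset.card_le_card h1))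
  refine ⟨Equiv.ofBijective f (Finite.injective_iff_bijective.1 hf), fun a => ?_⟩
  rcases Nat.lt_or_ge (n - (κ a).card) (l a).card with h | h
  · right
    intro i
    by_cases hi : i ∈ κ a
    · exact Or.inl hi
    right
    have h1 : (l' a).image f ⊆ (κ a)ᶜ := by
      intro z hz
      obtain ⟨j, hj, rfl⟩ := Finset.mem_image.1 hz
      rw [Finset.mem_compl]
      exact (ht _ _).1 (hft j) a hj
    have h2 : (l' a).image f = (κ a)ᶜ := by
      refine Finset.eq_of_subset_of_card_le h1 ?_
      rw [Finset.card_image_of_injective _ hf, Finset.card_compl, Fintype.card_fin, hc' a,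
        min_eq_right h.le]
    have h3 : i ∈ (l' a).image f := by
      rw [h2, Finset.mem_compl]
      exact hi
    obtain ⟨j, hj, hji⟩ := Finset.mem_image.1 h3
    exact ⟨j, hl' a hj, hji⟩
  · left
    intro j hj
    have h1 : l' a = l a := by
      refine Finset.eq_of_subset_of_card_le (hl' a) ?_
      rw [hc' a, min_eq_left h]
    rw [← h1] at hj
    exact (ht _ _).1 (hft j) a hj

end Pool.Agent.Dhub
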