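import Pool.Agent.Dij.Basic
import Pool.Agent.Dhub.Perm

/-!
Colourings compatible with two systems of disjoint sets.
-/

set_option linter.unusedSectionVars false

namespace Pool.Agent.Dhub

open Pool.Agent.Dij

theorem colour {V A : Type*} [Fintype V] [DecidableEq V] [Fintype A] [DecidableEq A] (k : ℕ)
    (J K : Fin (k + 1) → Finset A)
    (hJ : ∀ i j, i ≠ j → Disjoint (J i) (J j)) (hK : ∀ i j, i ≠ j → Disjoint (K i) (K j))
    (hJK : ∀ i j, Disjoint (J i) (K j))
    (G : Finset A → Prop) (hG : ∀ E E', G E → G E' → ∀ e, e ∈ E → e ∈ E' → E = E')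
    (hcard : ∀ E, G E → k + 1 ≤ E.card)
    (h1 : ∀ E, G E → ∀ i, (E ∩ J i).card ≤ 1) (h2 : ∀ E, G E → ∀ j, (E ∩ K j).card ≤ 1)
    (h3 : ∀ E, G E → (∃ i, (E ∩ J i).Nonempty) → (∃ j, (E ∩ K j).Nonempty) →
      (∀ i, (E ∩ J i).Nonempty → J i ⊆ E) ∧ ∀ j, (E ∩ K j).Nonempty → K j ⊆ E) :
    ∃ (f : A → Fin (k + 1)) (σ : Equiv.Perm (Fin (k + 1))), (∀ i, ∀ e ∈ J i, f e = i) ∧
      (∀ j, ∀ e ∈ K j, f e = σ j) ∧ ∀ E, G E → ∀ i, ∃ e ∈ E, f e = i := by
  classical
  -- the components met by both systems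
  let Bad : Type _ := {E : Finset A // G E ∧ (∃ i, (E ∩ J i).Nonempty) ∧ ∃ j, (E ∩ K j).Nonempty}
  let κ : Bad → Finset (Fin (k + 1)) := fun E => Finset.univ.filter fun i => (E.1 ∩ J i).Nonempty
  let l : Bad → Finset (Fin (k + 1)) := fun E => Finset.univ.filter fun j => (E.1 ∩ K j).Nonempty
  have hκ : ∀ a b : Bad, a ≠ b → Disjoint (κ a) (κ b) := by
    intro a b hab
    rw [Finset.disjoint_left]
    intro i hi hi'
    have h4 := (h3 a.1 a.2.1 a.2.2.1 a.2.2.2).1 i (Finset.mem_filter.1 hi).2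
    obtain ⟨e, he⟩ := (Finset.mem_filter.1 hi').2
    rw [Finset.mem_inter] at he
    exact hab (Subtype.ext (hG _ _ a.2.1 b.2.1 e (h4 he.2) he.1))
  have hl : ∀ a b : Bad, a ≠ b → Disjoint (l a) (l b) := by
    intro a b hab
    rw [Finset.disjoint_left]
    intro i hi hi'
    have h4 := (h3 a.1 a.2.1 a.2.2.1 a.2.2.2).2 i (Finset.mem_filter.1 hi).2
    obtain ⟨e, he⟩ := (Finset.mem_filter.1 hi').2
    rw [Finset.mem_inter] at he
    exact hab (Subtype.ext (hG _ _ a.2.1 b.2.1 e (h4 he.2) he.1))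
  obtain ⟨σ, hσ⟩ := exists_perm κ l hκ hl
  -- the joint system
  let L : Fin (k + 1) → Finset A := fun i => J i ∪ K (σ.symm i)
  have hL : ∀ i j, i ≠ j → Disjoint (L i) (L j) := by
    intro i j hij
    have h4 : σ.symm i ≠ σ.symm j := fun h => hij (σ.symm.injective h)
    rw [Finset.disjoint_union_left, Finset.disjoint_union_right, Finset.disjoint_union_right]
    exact ⟨⟨hJ i j hij, hJK _ _⟩, ⟨(hJK _ _).symm, hK _ _ h4⟩⟩
  have hex : ∀ E, G E → ∃ g : A → Fin (k + 1), (∀ e, ∀ i, e ∈ L i → g e = i) ∧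
      ∀ i, ∃ e ∈ E, g e = i := by
    intro E hE
    by_cases hsmall : ∀ i, (E ∩ L i).card ≤ 1
    · exact complete k E L hL 1 le_rfl hsmall (by have := hcard E hE; omega)
    · push Not at hsmall
      obtain ⟨i0, hi0⟩ := hsmall
      have h4 : (E ∩ J i0).Nonempty ∧ (E ∩ K (σ.symm i0)).Nonempty := by
        have h5 : (E ∩ L i0).card ≤ (E ∩ J i0).card + (E ∩ K (σ.symm i0)).card := by
          have h6 : E ∩ L i0 = (E ∩ J i0) ∪ (E ∩ K (σ.symm i0)) := Finset.inter_union_distrib_left _ _ _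
          rw [h6]
          exact Finset.card_union_le _ _
        have h6 := h1 E hE i0
        have h7 := h2 E hE (σ.symm i0)
        exact ⟨Finset.card_pos.1 (by omega), Finset.card_pos.1 (by omega)⟩
      let a : Bad := ⟨E, hE, ⟨i0, h4.1⟩, ⟨_, h4.2⟩⟩
      have hall : ∀ i, i ∈ κ a ∨ ∃ j ∈ l a, σ j = i := by
        rcases hσ a with h5 | h5
        · exfalso
          refine h5 (σ.symm i0) (Finset.mem_filter.2 ⟨Finset.mem_univ _, h4.2⟩) ?_
          rw [Equiv.apply_symm_apply]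
          exact Finset.mem_filter.2 ⟨Finset.mem_univ _, h4.1⟩
        · exact h5
      let g : A → Fin (k + 1) := fun e => if h : ∃ i, e ∈ L i then h.choose else 0
      have hg : ∀ e, ∀ i, e ∈ L i → g e = i := by
        intro e i he
        have h : ∃ i, e ∈ L i := ⟨i, he⟩
        have h5 : g e = h.choose := dif_pos h
        rw [h5]
        by_contra hne
        exact Finset.disjoint_left.1 (hL _ _ hne) h.choose_spec he
      refine ⟨g, hg, fun i => ?_⟩
      rcases hall i with h5 | ⟨j, h5, h6⟩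
      · obtain ⟨e, he⟩ := (Finset.mem_filter.1 h5).2
        rw [Finset.mem_inter] at he
        exact ⟨e, he.1, hg e i (Finset.mem_union_left _ he.2)⟩
      · obtain ⟨e, he⟩ := (Finset.mem_filter.1 h5).2
        rw [Finset.mem_inter] at he
        refine ⟨e, he.1, hg e i (Finset.mem_union_right _ ?_)⟩
        rw [← h6, Equiv.symm_apply_apply]
        exact he.2
  choose! g hg1 hg2 using hex
  let f : A → Fin (k + 1) := fun e =>
    if h : ∃ E, G E ∧ e ∈ E then g h.choose e else if h' : ∃ i, e ∈ L i then h'.choose else 0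
  have hfL : ∀ i, ∀ e ∈ L i, f e = i := by
    intro i e he
    by_cases h : ∃ E, G E ∧ e ∈ E
    · have h5 : f e = g h.choose e := dif_pos h
      rw [h5]
      exact hg1 _ h.choose_spec.1 e i he
    · have h' : ∃ i, e ∈ L i := ⟨i, he⟩
      have h5 : f e = h'.choose := by
        simp only [f, dif_neg h, dif_pos h']
      rw [h5]
      by_contra hne
      exact Finset.disjoint_left.1 (hL _ _ hne) h'.choose_spec he
  refine ⟨f, σ, fun i e he => hfL i e (Finset.mem_union_left _ he), fun j e he => ?_,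
    fun E hE i => ?_⟩
  · refine hfL (σ j) e (Finset.mem_union_right _ ?_)
    rw [Equiv.symm_apply_apply]
    exact he
  · obtain ⟨e, he, hei⟩ := hg2 E hE i
    refine ⟨e, he, ?_⟩
    have h : ∃ E, G E ∧ e ∈ E := ⟨E, hE, he⟩
    have h5 : f e = g h.choose e := dif_pos h
    rw [h5, hG _ _ h.choose_spec.1 hE e h.choose_spec.2 he, hei]

end Pool.Agent.Dhub
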