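import Pool.Agent.Dij.Basic

/-!
Minimal covers of the sets without entering arcs which contain `u` and avoid `v`.
-/

set_option linter.unusedSectionVars false

namespace Pool.Agent.Dhub

open Pool.Agent.Dij

variable {V A : Type*} [Fintype V] [DecidableEq V] [Fintype A] [DecidableEq A]

variable {tail head : A → V}

/-- contains `u`, avoids `v`, no entering arc -/
def Sep (tail head : A → V) (u v : V) (U : Finset V) : Prop :=
  u ∈ U ∧ v ∉ U ∧ ∀ a, head a ∈ U → tail a ∈ U

/-- minimal covers of the sets `Sep` -/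
def MinSep (tail head : A → V) (u v : V) (J : Finset A) : Prop :=
  (∀ U, Sep tail head u v U → (out tail head J U).Nonempty) ∧
    ∀ e ∈ J, ∃ U, Sep tail head u v U ∧ out tail head J U = {e}

theorem packSep (u v : V) (k : ℕ) (T : Finset A)
    (h : ∀ U, Sep tail head u v U → k ≤ (out tail head T U).card) :
    ∃ J : Fin k → Finset A, (∀ i, J i ⊆ T) ∧ (∀ i j, i ≠ j → Disjoint (J i) (J j)) ∧
      ∀ i, MinSep tail head u v (J i) := by
  classical
  let tail' : A ⊕ V → V := Sum.elim tail (fun _ => u)
  let head' : A ⊕ V → V := Sum.elim head (fun x => x)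
  have hOk : ∀ U, Ok tail' head' v U ↔ Sep tail head u v U := by
    intro U
    constructor
    · rintro ⟨⟨x, hx⟩, hv, hc⟩
      exact ⟨hc (Sum.inr x) hx, hv, fun a ha => hc (Sum.inl a) ha⟩
    · rintro ⟨hu, hv, hc⟩
      refine ⟨⟨u, hu⟩, hv, ?_⟩
      rintro (a | x) hx
      · exact hc a hx
      · exact hu
  obtain ⟨J', h1, h2, h3⟩ := packing (tail := tail') (head := head') v k
    (T.map ⟨Sum.inl, Sum.inl_injective⟩) (by
      intro U hU
      have h4 := h U ((hOk U).1 hU)
      have e : out tail' head' (T.map ⟨Sum.inl, Sum.inl_injective⟩) U =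
          (out tail head T U).map ⟨Sum.inl, Sum.inl_injective⟩ := by
        ext (a | x)
        · simp [mem_out, tail', head']
        · simp [mem_out, tail', head']
      rw [e, Finset.card_map]
      exact h4)
  have hr : ∀ i x, Sum.inr x ∉ J' i := fun i x hx => by
    have := h1 i hx
    simp at this
  refine ⟨fun i => Finset.univ.filter (fun a => Sum.inl a ∈ J' i), ?_, ?_, ?_⟩
  · intro i a ha
    have := h1 i (Finset.mem_filter.1 ha).2
    simpa using this
  · intro i j hij
    rw [Finset.disjoint_left]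
    intro a ha hb
    exact Finset.disjoint_left.1 (h2 i j hij) (Finset.mem_filter.1 ha).2 (Finset.mem_filter.1 hb).2
  · intro i
    have hout : ∀ U a, a ∈ out tail head (Finset.univ.filter (fun a => Sum.inl a ∈ J' i)) U ↔
        Sum.inl a ∈ out tail' head' (J' i) U := by
      intro U a
      simp [mem_out, tail', head']
    refine ⟨fun U hU => ?_, fun e he => ?_⟩
    · obtain ⟨x, hx⟩ := (h3 i).1 U ((hOk U).2 hU)
      rcases x with a | x
      · exact ⟨a, (hout U a).2 hx⟩
      · exact absurd (mem_out.1 hx).1 (hr i x)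
    · obtain ⟨U, hU, hUe⟩ := (h3 i).2 (Sum.inl e) (Finset.mem_filter.1 he).2
      refine ⟨U, (hOk U).1 hU, ?_⟩
      ext a
      rw [hout, hUe]
      simp

/-- an arc of a minimal cover leaves a set `Sep` -/
theorem MinSep.leaves {u v : V} {J : Finset A} (hJ : MinSep tail head u v J) {e : A} (he : e ∈ J) :
    ∃ U, Sep tail head u v U ∧ tail e ∈ U ∧ head e ∉ U ∧ out tail head J U = {e} := by
  obtain ⟨U, hU, h⟩ := hJ.2 e he
  have h1 : e ∈ out tail head J U := by
    rw [h]
    exact Finset.mem_singleton_self e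
  exact ⟨U, hU, (mem_out.1 h1).2.1, (mem_out.1 h1).2.2, h⟩

theorem MinSep.not_reach {u v : V} {J : Finset A} (hJ : MinSep tail head u v J) {e : A}
    (he : e ∈ J) : ¬ Reach tail head v (tail e) ∧ ¬ Reach tail head (head e) u := by
  obtain ⟨U, hU, h1, h2, -⟩ := hJ.leaves he
  exact ⟨fun h => hU.2.1 (closed_reach hU.2.2 h h1), fun h => h2 (closed_reach hU.2.2 h hU.1)⟩

/-- at most one arc whose tail reaches `u` -/
theorem MinSep.uniq_tail {u v : V} {J : Finset A} (hJ : MinSep tail head u v J) {e e' : A}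
    (he : e ∈ J) (he' : e' ∈ J) (h1 : Reach tail head (tail e) u) (h2 : Reach tail head (tail e') u) :
    e = e' := by
  by_contra hne
  obtain ⟨U, hU, -, h4, h5⟩ := hJ.leaves he
  obtain ⟨W, hW, -, h7, h8⟩ := hJ.leaves he'
  have hsub := submod (tail := tail) (head := head) J U W
  rw [h5, h8, Finset.card_singleton, Finset.card_singleton] at hsub
  have h9 : (out tail head J (U ∪ W)).Nonempty := hJ.1 _ ⟨Finset.mem_union_left _ hU.1,
    fun h => (Finset.mem_union.1 h).elim hU.2.1 hW.2.1, fun a ha => Finset.mem_union.2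
      ((Finset.mem_union.1 ha).imp (hU.2.2 a) (hW.2.2 a))⟩
  have h10 : ({e, e'} : Finset A) ⊆ out tail head J (U ∩ W) := by
    intro x hx
    rw [Finset.mem_insert, Finset.mem_singleton] at hx
    rcases hx with rfl | rfl
    · exact mem_out.2 ⟨he, Finset.mem_inter.2 ⟨closed_reach hU.2.2 h1 hU.1, closed_reach hW.2.2 h1 hW.1⟩,
        fun h => h4 (Finset.mem_inter.1 h).1⟩
    · exact mem_out.2 ⟨he', Finset.mem_inter.2 ⟨closed_reach hU.2.2 h2 hU.1, closed_reach hW.2.2 h2 hW.1⟩,
        fun h => h7 (Finset.mem_inter.1 h).2⟩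
  have h11 := Finset.card_le_card h10
  rw [Finset.card_pair hne] at h11
  have := Finset.card_pos.2 h9
  omega

/-- an arc which leaves all sets `Sep` is alone -/
theorem MinSep.single {u v : V} {J : Finset A} (hJ : MinSep tail head u v J) {e : A}
    (he : e ∈ J) (h : ∀ U, Sep tail head u v U → tail e ∈ U ∧ head e ∉ U) : J = {e} := by
  ext e'
  rw [Finset.mem_singleton]
  constructor
  · intro he'
    obtain ⟨U, hU, -, -, h5⟩ := hJ.leaves he'
    have h6 : e ∈ out tail head J U := mem_out.2 ⟨he, h U hU⟩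
    rw [h5, Finset.mem_singleton] at h6
    exact h6.symm
  · rintro rfl
    exact he

/-- reachability in the reversed digraph -/
theorem reach_rev {x y : V} (h : Reach tail head x y) : Reach head tail y x := by
  induction h with
  | refl => exact Relation.ReflTransGen.refl
  | tail _ hbc ih =>
    obtain ⟨a, h1, h2⟩ := hbc
    exact Relation.ReflTransGen.head ⟨a, h2, h1⟩ ih

/-- the reversed digraph -/
theorem MinSep.rev {u v : V} {J : Finset A} (hJ : MinSep tail head u v J) :
    MinSep head tail v u J := by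
  have hS : ∀ U, Sep head tail v u U → Sep tail head u v Uᶜ := by
    intro U hU
    refine ⟨Finset.mem_compl.2 hU.2.1, fun h => Finset.mem_compl.1 h hU.1, fun a ha => ?_⟩
    rw [Finset.mem_compl] at ha ⊢
    exact fun h => ha (hU.2.2 a h)
  have hS' : ∀ U, Sep tail head u v U → Sep head tail v u Uᶜ := by
    intro U hU
    refine ⟨Finset.mem_compl.2 hU.2.1, fun h => Finset.mem_compl.1 h hU.1, fun a ha => ?_⟩
    rw [Finset.mem_compl] at ha ⊢
    exact fun h => ha (hU.2.2 a h)
  have hO : ∀ U, out head tail J Uᶜ = out tail head J U := by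
    intro U
    ext a
    rw [mem_out, mem_out, Finset.mem_compl, Finset.mem_compl, not_not]
    tauto
  refine ⟨fun U hU => ?_, fun e he => ?_⟩
  · have h1 := hJ.1 _ (hS U hU)
    rw [← hO, compl_compl] at h1
    exact h1
  · obtain ⟨U, hU, h⟩ := hJ.2 e he
    exact ⟨Uᶜ, hS' U hU, by rw [hO, h]⟩

end Pool.Agent.Dhub
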